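import Mathlib
import Pool.Agent.X137.WDefs
import Pool.Agent.X137.WSpikeDefs
import Pool.Agent.X137.WSpike

/-! A star-shaped compact set with Lipschitz boundary (a long thin cross-polytope) which is not the
limit shape of any weighted Eden model. -/

namespace Pool.Agent.Results.MP_41ff67_pr.NotLimitShape

open Set Filter Topology
open Pool.Agent.X137.WModel Pool.Agent.X137.WSpike

/-- For every `d ≥ 2` and every norm `N` on `ℝ ^ d` (in particular the norm `μ` whose closed unit ball
is the limit shape of the unweighted Eden model) there is a compact convex set `K` with Lipschitz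
boundary, containing a neighbourhood of `0`, whose boundary meets every ray from `0` in exactly one
point, and such that `K` is not the closed unit ball about `0` of the metric `D`, for any `α < 1` and
any `α`-weight function `f`. -/
theorem result (d : ℕ) (hd : 2 ≤ d) (N : Seminorm ℝ (Sp d)) (hN : ∀ x, N x = 0 → x = 0) :
    ∃ K : Set (Sp d), IsCompact K ∧ LipschitzBoundary K ∧ K ∈ 𝓝 (0 : Sp d) ∧
      (∀ u : Sp d, u ≠ 0 → ∃! t : ℝ, 0 ≤ t ∧ t • u ∈ frontier K) ∧ Convex ℝ K ∧
      ∀ (α : ℝ), α < 1 → ∀ (f₀ : Sp d → ℝ) (C : NNReal),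
        LipschitzOnWith C f₀ (Metric.sphere (0 : Sp d) 1) →
        (∀ u ∈ Metric.sphere (0 : Sp d) 1, 0 < f₀ u) → K ≠ wball N (wfun α f₀) := by
  classical
  obtain ⟨κ, hκ, hκN⟩ := Pool.Agent.X137.WBall.seminorm_lower (by omega : 1 ≤ d) N hN
  set i₀ : Fin d := ⟨0, by omega⟩ with hi₀
  set i₁ : Fin d := ⟨1, by omega⟩ with hi₁
  have h01 : i₀ ≠ i₁ := by simp [hi₀, hi₁]
  set e : Sp d := EuclideanSpace.single i₁ 1 with he
  set R : ℝ := N e / κ + 1 with hR
  have hR0 : 0 < R := by
    have : 0 ≤ N e / κ := div_nonneg (apply_nonneg _ _) hκ.le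
    linarith
  set c : Fin d → ℝ := fun i => if i = i₀ then 1 / R else 1 with hc
  have hcpos : ∀ i, 0 < c i := by
    intro i
    by_cases h : i = i₀
    · simp only [hc, h, if_true]; positivity
    · simp only [hc, h, if_false]; exact one_pos
  have hc0 : c i₀ = 1 / R := by simp [hc]
  have hc1 : c i₁ = 1 := by simp [hc, h01.symm]
  set g := gS c hcpos with hg
  have hg0 : ∀ x, g x = 0 → x = 0 := gS_zero c hcpos
  refine ⟨Kset g, Kset_compact (by omega) g hg0, Kset_lipschitz c hcpos, Kset_nhds g,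
    fun u hu => Kset_ray g hg0 u hu, ?_, ?_⟩
  · have := g.convexOn.convex_le 1
    simpa [Kset] using this
  intro α hα f₀ C hlip hpos hK
  set z₀ : Sp d := EuclideanSpace.single i₀ R with hz₀
  have hgze : ∀ s : ℝ, 0 ≤ s → g (z₀ + s • e) = 1 + s := by
    intro s hs
    rw [hg, gS_apply, Fintype.sum_eq_add i₀ i₁ h01]
    · have h1 : (z₀ + s • e) i₀ = R := by simp [hz₀, he, h01]
      have h2 : (z₀ + s • e) i₁ = s := by simp [hz₀, he, h01.symm]
      rw [h1, h2, hc0, hc1, abs_of_pos hR0, abs_of_nonneg hs, one_div, inv_mul_cancel₀ hR0.ne',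
        one_mul]
    · rintro i ⟨hi0, hi1⟩
      have h1 : (z₀ + s • e) i = 0 := by simp [hz₀, he, hi0, hi1]
      rw [h1]; simp
  have hgz : g z₀ = 1 := by
    have := hgze 0 le_rfl
    simpa using this
  have hz₀ne : z₀ ≠ 0 := by
    intro h
    rw [h, map_zero] at hgz
    exact zero_ne_one hgz
  have hside := step_side hα hlip hpos hK hz₀ne hgz hgze
  have htip := step_tip hα hlip hpos hK hz₀ne hgz (A := κ * R) (by
      intro ρ w hρ0 hρ1 hw
      have h1 := coord_le c hcpos w i₀
      rw [← hg, hw, hc0] at h1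
      have h2 : |w i₀| ≤ ρ * R := by
        rw [one_div, inv_mul_le_iff₀ hR0] at h1
        linarith
      have h3 : R * (1 - ρ) ≤ ‖z₀ - w‖ := by
        have h4 : |(z₀ - w) i₀| ≤ ‖z₀ - w‖ := by
          have := PiLp.norm_apply_le (z₀ - w) i₀
          simpa [Real.norm_eq_abs] using this
        have h5 : (z₀ - w) i₀ = R - w i₀ := by simp [hz₀]
        rw [h5] at h4
        have h6 := le_abs_self (R - w i₀)
        have h7 := le_abs_self (w i₀)
        nlinarith
      calc κ * R * (1 - ρ) = κ * (R * (1 - ρ)) := by ring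
        _ ≤ κ * ‖z₀ - w‖ := mul_le_mul_of_nonneg_left h3 hκ.le
        _ ≤ N (z₀ - w) := hκN _)
    (by
      intro r hr
      refine ⟨κ * r, by positivity, fun x hx => ?_⟩
      have h1 := lt_of_le_of_lt (hκN (z₀ - x)) hx
      exact lt_of_mul_lt_mul_left h1 hκ.le)
  have h1 : κ * R ≤ N e := htip.trans hside
  have h2 : κ * R = N e + κ := by
    rw [hR]; field_simp
  linarith

end Pool.Agent.Results.MP_41ff67_pr.NotLimitShape
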